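import Pool.Agent.Q121.Golod.Fin2

/-! # A Cohen-Macaulay Golod quotient whose type is smaller than the height -/

set_option autoImplicit false

universe u

open MvPolynomial

namespace Pool.Agent.Results.MP_5d828d_al.TypeTwoGolod

/-- The underlying algebra of the Koszul complex of `n` elements of `R`: the exterior algebra of
`R ^ n`. -/
def Kos (R : Type u) [CommRing R] (n : ℕ) : Type u := ExteriorAlgebra R (Fin n → R)

section Instances

variable {R : Type u} [CommRing R] {n : ℕ}

noncomputable instance : Ring (Kos R n) := inferInstanceAs (Ring (ExteriorAlgebra R (Fin n → R)))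

noncomputable instance : Algebra R (Kos R n) :=
  inferInstanceAs (Algebra R (ExteriorAlgebra R (Fin n → R)))

end Instances

/-- The embedding of `R ^ n` in its exterior algebra (the elements of degree one). -/
noncomputable def one {R : Type u} [CommRing R] {n : ℕ} : (Fin n → R) →ₗ[R] Kos R n :=
  ExteriorAlgebra.ι R

/-- The elements of degree `i` of the Koszul complex. -/
def Deg (R : Type u) [CommRing R] (n i : ℕ) : Submodule R (Kos R n) := ⋀[R]^i (Fin n → R)

/-- The linear form on `R ^ n` with `e_a ↦ x_a`. -/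
def form {R : Type u} [CommRing R] {n : ℕ} (x v : Fin n → R) : R := ∑ a, v a * x a

/-- `d` is the differential of the Koszul complex of the sequence `x` in `R`: the antiderivation of
the exterior algebra with `e_a ↦ x_a`. -/
def IsKd {R : Type u} [CommRing R] {n : ℕ} (x : Fin n → R) (d : Kos R n →ₗ[R] Kos R n) : Prop :=
  d 1 = 0 ∧ ∀ (v : Fin n → R) (b : Kos R n), d (one v * b) = form x v • b - one v * d b

/-- The combination with coefficients `f` in `k` of the elements `z`. -/
noncomputable def comb {k R : Type u} [Field k] [CommRing R] [Algebra k R] {n : ℕ} {Λ : Type u}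
    (z : Λ → Kos R n) (f : Λ →₀ k) : Kos R n :=
  f.sum fun l a => algebraMap k R a • z l

/-- `c` is a cycle of degree `i`. -/
def IsCyc {R : Type u} [CommRing R] {n : ℕ} (d : Kos R n →ₗ[R] Kos R n) (i : ℕ) (c : Kos R n) :
    Prop :=
  c ∈ Deg R n i ∧ d c = 0

/-- `c` is a boundary of degree `i`. -/
def IsBd {R : Type u} [CommRing R] {n : ℕ} (d : Kos R n →ₗ[R] Kos R n) (i : ℕ) (c : Kos R n) :
    Prop :=
  ∃ b ∈ Deg R n (i + 1), c = d b

/-- The elements `z` are cycles of degree `i` of the Koszul complex, and their classes are a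
`k`-basis of its `i`-th homology. -/
def IsHomBasis (k : Type u) {R : Type u} [Field k] [CommRing R] [Algebra k R] {n : ℕ}
    (d : Kos R n →ₗ[R] Kos R n) (i : ℕ) {Λ : Type u} (z : Λ → Kos R n) : Prop :=
  (∀ l, IsCyc d i (z l)) ∧
  (∀ c, IsCyc d i c → ∃ f : Λ →₀ k, IsBd d i (c - comb z f)) ∧
  (∀ f : Λ →₀ k, IsBd d i (comb z f) → f = 0)

/-- The degree plus the length of a word in the basis elements (the letters of `Λ i` have degree
`i + 1`). -/
def wt {Λ : ℕ → Type u} (w : List (Σ i : ℕ, Λ i)) : ℕ :=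
  (w.map fun l => l.1 + 1).sum + w.length

/-- The right side of the formula for `d (μ w)`: the sum over the factorisations `w = u v` into
nonempty words of `(-1) ^ (deg (μ u) + 1) μ(u) μ(v)`. -/
noncomputable def rhs {R : Type u} [CommRing R] {n : ℕ} {Λ : ℕ → Type u}
    (μ : List (Σ i : ℕ, Λ i) → Kos R n) (w : List (Σ i : ℕ, Λ i)) : Kos R n :=
  ∑ j ∈ Finset.Ioo 0 w.length, (-1 : R) ^ wt (w.take j) • (μ (w.take j) * μ (w.drop j))

/-- `μ` is a trivial Massey operation with `μ (λ) = z_λ` and values in the maximal ideal. -/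
def IsMassey {R : Type u} [CommRing R] {n : ℕ} (x : Fin n → R) (d : Kos R n →ₗ[R] Kos R n)
    {Λ : ℕ → Type u} (z : ∀ i, Λ i → Kos R n) (μ : List (Σ i : ℕ, Λ i) → Kos R n) : Prop :=
  (∀ l : Σ i : ℕ, Λ i, μ [l] = z l.1 l.2) ∧
  (∀ w, w ≠ [] → μ w ∈ Deg R n (wt w - 1)) ∧
  (∀ w, μ w ∈ (Ideal.span (Set.range x) • ⊤ : Submodule R (Kos R n))) ∧
  (∀ w, 2 ≤ w.length → d (μ w) = rhs μ w)

/-- `R`, with residue field `k` and maximal ideal generated by `x`, is Golod: the Koszul complex of
`x` has a trivial Massey operation. -/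
def IsGolod (k : Type u) {R : Type u} [Field k] [CommRing R] [Algebra k R] {n : ℕ}
    (x : Fin n → R) : Prop :=
  ∃ d : Kos R n →ₗ[R] Kos R n, IsKd x d ∧
    ∃ (Λ : ℕ → Type u) (z : ∀ i, Λ i → Kos R n) (μ : List (Σ i : ℕ, Λ i) → Kos R n),
      (∀ i, IsHomBasis k d (i + 1) (z i)) ∧ IsMassey x d z μ

/-- The type of a ring `R` of depth zero with residue field `k` and maximal ideal `𝔪` generated by
`x`, the dimension of `Hom_R(R / 𝔪, R)`. -/
noncomputable def typeZero (k : Type u) {R : Type u} [Field k] [CommRing R] [Algebra k R] {n : ℕ}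
    (x : Fin n → R) : ℕ :=
  Module.finrank k ((R ⧸ Ideal.span (Set.range x)) →ₗ[R] R)

/-- The images of the variables in a quotient of the polynomial ring. -/
noncomputable def var {k : Type u} [Field k] {n : ℕ} (I : Ideal (MvPolynomial (Fin n) k)) :
    Fin n → MvPolynomial (Fin n) k ⧸ I :=
  fun i => Ideal.Quotient.mk I (X i)

/-- The ideal `I` is homogeneous for the standard grading. -/
def IsHomog {k : Type u} [Field k] {n : ℕ} (I : Ideal (MvPolynomial (Fin n) k)) : Prop :=
  ∀ p ∈ I, ∀ m : ℕ, homogeneousComponent m p ∈ I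

theorem of_old (k : Type u) {R : Type u} [Field k] [CommRing R] [Algebra k R] {n : ℕ}
    (x : Fin n → R) (h : Pool.Agent.Q121.Golod.IsGolod k x) : IsGolod k x := by
  obtain ⟨T⟩ := h
  refine ⟨(Pool.Agent.Q121.Golod.kd x : Kos R n →ₗ[R] Kos R n), ⟨?_, fun v b => ?_⟩,
    T.Λ, T.z, T.μ, fun i => ⟨fun l => ⟨T.z_mem i l, T.z_cycle i l⟩, ?_, ?_⟩,
    T.μ_single, T.μ_mem, T.μ_max, fun w hw => ?_⟩
  · exact CliffordAlgebra.contractLeft_one _ _
  · exact CliffordAlgebra.contractLeft_ι_mul _ _ _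
  · rintro c ⟨hc, hd⟩
    obtain ⟨f, b, hb, he⟩ := T.span i c hc hd
    refine ⟨f, b, hb, ?_⟩
    rw [sub_eq_iff_eq_add, add_comm]
    exact he
  · rintro f ⟨b, hb, he⟩
    exact T.indep i f b hb he
  · refine (T.μ_d w hw).trans (Finset.sum_congr rfl fun j hj => ?_)
    rw [wt, List.length_take, min_eq_left (Finset.mem_Ioo.1 hj).2.le]
    rfl

/-- Over every field `k` there is a homogeneous ideal `I ≤ 𝔪 ^ 2` of `S = k[x, y, z]` (standard
grading) such that `R = S / I` is Artinian (so Cohen-Macaulay of depth zero) and Golod, its type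
`dim_k Hom_R(R / 𝔪, R)` is `2`, and the height of `I` is `3`. -/
theorem result (k : Type u) [Field k] :
    ∃ I : Ideal (MvPolynomial (Fin 3) k),
      IsHomog I ∧ I ≤ idealOfVars (Fin 3) k ^ 2 ∧
      IsArtinianRing (MvPolynomial (Fin 3) k ⧸ I) ∧ IsGolod k (var I) ∧
      typeZero k (var I) = 2 ∧ I.height = 3 :=
  ⟨Pool.Agent.Q121.Golod.I k, Pool.Agent.Q121.Golod.I_homog, Pool.Agent.Q121.Golod.I_le,
    Pool.Agent.Q121.Golod.artin, of_old _ _ Pool.Agent.Q121.Golod.golod,
    Pool.Agent.Q121.Golod.type_two, Pool.Agent.Q121.Golod.height_I⟩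

end Pool.Agent.Results.MP_5d828d_al.TypeTwoGolod
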